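import Mathlib
import Pool.Agent.Lib.MP_2c654c_co.Lift

set_option autoImplicit false

namespace Pool.Agent.Lib.MP_2c654c_co.Old.Lifting

/-- The Cayley table of `G` has a latin square root square: square roots `τ g` of the left
multiplications can be chosen so that every column has pairwise distinct entries. -/
def HasLatinRoot (G : Type) [Group G] : Prop :=
  ∃ τ : G → Equiv.Perm G,
    (∀ g : G, τ g * τ g = Equiv.mulLeft g) ∧ ∀ x : G, Function.Injective (fun g : G => τ g x)

theorem result (G : Type) [Group G] [Finite G] (N : Subgroup G) [N.Normal]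
    (h1 : Group.IsSolvable N) (h2 : Nat.Coprime (Nat.card N) 6) (h3 : HasLatinRoot (G ⧸ N)) :
    HasLatinRoot G :=
  Pool.Agent.Lib.MP_2c654c_co.root_of_sys
    (Pool.Agent.Lib.MP_2c654c_co.sys_lift_soluble _ N rfl h1 h2
      (Pool.Agent.Lib.MP_2c654c_co.sys_of_root h3))

end Pool.Agent.Lib.MP_2c654c_co.Old.Lifting
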