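import Mathlib
import Pool.Agent.Lib.MP_2c654c_co.Main

set_option autoImplicit false

namespace Pool.Agent.Lib.MP_2c654c_co.Old.Unitary

open Pool.Agent.Lib.MP_2c654c_co

/-- The Cayley table of `G` has a latin square root square: square roots `τ g` of the left
multiplications can be chosen so that every column has pairwise distinct entries. -/
def HasLatinRoot (G : Type) [Group G] : Prop :=
  ∃ τ : G → Equiv.Perm G,
    (∀ g : G, τ g * τ g = Equiv.mulLeft g) ∧ ∀ x : G, Function.Injective (fun g : G => τ g x)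

/-- `G` is a finite group of unitary elements of a star algebra `A` over a finite field `K` of
characteristic 2 with a nontrivial involution and at least 1024 elements, `G` contains every
unipotent unitary element of `A`, and `Q` is a quotient of `G` by a group of scalars. -/
theorem result (K A G Q : Type) [Field K] [Finite K] [CharP K 2] [StarRing K] [Ring A]
    [Algebra K A] [StarRing A] [StarModule K A] [Group G] [Finite G] [Group Q]
    (hs : ∃ a : K, star a ≠ a) (hK : 1024 ≤ Nat.card K)
    (ι : G →* A) (hι : Function.Injective ι) (hU : ∀ g : G, ι g ∈ unitary A)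
    (hG : ∀ u ∈ unitary A, IsNilpotent (u - 1) → ∃ g : G, ι g = u)
    (π : G →* Q) (hπ : Function.Surjective π)
    (hZ : ∀ z : G, π z = 1 → ∃ c : K, ι z = algebraMap K A c) : HasLatinRoot Q := by
  have : Finite Q := Finite.of_surjective π hπ
  refine root_of_sys (sys_of_blocks (blocks_quot π hπ (fun z hz => ?_) (fun z hz => ?_)
    (blocks_uni hs hK ι hι (fun g => (hU g).1) fun u hu hu1 => hG u ⟨hu1, ?_⟩ hu)))
  · obtain ⟨c, hc⟩ := hZ z hz
    exact (od_scalar ι hι hc).1
  · obtain ⟨c, hc⟩ := hZ z hz
    exact (od_scalar ι hι hc).2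
  · obtain ⟨w, rfl⟩ := unit_of_unip hu
    rw [← Units.inv_eq_of_mul_eq_one_left hu1, Units.mul_inv]

/-- Instance of `result`: every group between `SU(n)` and `U(n)`, modulo any normal subgroup of
scalar matrices (so `U`, `SU`, `PU`, `PSU`). -/
theorem matrix_case (K : Type) [Field K] [Finite K] [CharP K 2] [StarRing K] (n : ℕ)
    (hs : ∃ a : K, star a ≠ a) (hK : 1024 ≤ Nat.card K)
    (G : Subgroup (Matrix.unitaryGroup (Fin n) K)) (Z : Subgroup G) [Z.Normal]
    (hG : ∀ g : Matrix.unitaryGroup (Fin n) K, g.1.det = 1 → g ∈ G)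
    (hZ : ∀ z ∈ Z, ∃ c : K, z.1.1 = Matrix.scalar (Fin n) c) : HasLatinRoot (G ⧸ Z) :=
  result K (Matrix (Fin n) (Fin n) K) G _ hs hK
    ((unitary (Matrix (Fin n) (Fin n) K)).subtype.comp G.subtype)
    (Subtype.val_injective.comp Subtype.val_injective) (fun g => g.1.2)
    (fun u hu hn => ⟨⟨⟨u, hu⟩, hG _ (det_unip hn)⟩, rfl⟩) (QuotientGroup.mk' Z)
    (QuotientGroup.mk'_surjective Z) (fun z hz => hZ z ((QuotientGroup.eq_one_iff z).1 hz))

end Pool.Agent.Lib.MP_2c654c_co.Old.Unitary
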